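import Pool.Agent.helper38.VA.Spec

/-!
# KTH of project va (MP_a2a22c_al): the K-type, assembly
-/

set_option autoImplicit false

namespace Pool.Agent.VA

open Matrix Module Pool.Agent.PR Pool.Agent.H48SL

/-- the map `x ↦ S x R` -/
def KTH_L {n : ℕ} (R : Matrix (Fin 2) (Fin n) ℤ) (S : Matrix (Fin n) (Fin 2) ℤ) : M2 →ₗ[ℚ] MQ n where
  toFun x := cq S * x * cq R
  map_add' x y := by rw [Matrix.mul_add, Matrix.add_mul]
  map_smul' c x := by rw [Matrix.mul_smul, Matrix.smul_mul, RingHom.id_apply]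

theorem KTH_L_apply {n : ℕ} (R : Matrix (Fin 2) (Fin n) ℤ) (S : Matrix (Fin n) (Fin 2) ℤ) (x : M2) :
    KTH_L R S x = cq S * x * cq R := rfl

theorem KTH_clear (n : ℕ) (X : MQ n) :
    ∃ m : ℕ, 0 < m ∧ ∃ Z : Matrix (Fin n) (Fin n) ℤ, (m : ℚ) • X = cq Z := by
  classical
  set m : ℕ := ∏ p : Fin n × Fin n, (X p.1 p.2).den with hm
  have hm0 : 0 < m := Finset.prod_pos fun p _ => (X p.1 p.2).pos
  have h1 : ∀ i j, ∃ z : ℤ, (m : ℚ) * X i j = z := by
    intro i j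
    have h2 : (X i j).den ∣ m := Finset.dvd_prod_of_mem (fun p : Fin n × Fin n => (X p.1 p.2).den)
      (Finset.mem_univ (i, j))
    obtain ⟨k, hk⟩ := h2
    refine ⟨k * (X i j).num, ?_⟩
    have h3 : (X i j) * ((X i j).den : ℚ) = (X i j).num := Rat.mul_den_eq_num _
    rw [hk]
    push_cast
    rw [← h3]
    ring
  choose f hf using h1
  refine ⟨m, hm0, Matrix.of f, ?_⟩
  ext i j
  rw [Matrix.smul_apply, smul_eq_mul, hf]
  rfl

theorem KTH_cq_add {n : ℕ} (A B : Matrix (Fin n) (Fin n) ℤ) : cq (A + B) = cq A + cq B := by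
  unfold cq
  rw [Matrix.map_add _ (fun a b => map_add (Int.castRingHom ℚ) a b)]

theorem KTH_cq_neg {n : ℕ} (A : Matrix (Fin n) (Fin n) ℤ) : cq (-A) = -cq A := by
  ext i j
  simp [cq]

theorem KTH_cq_zero {n : ℕ} : cq (0 : Matrix (Fin n) (Fin n) ℤ) = 0 := by
  ext i j
  simp [cq]

/-- The lattice `Λ`. -/
def KTH_Lam {n : ℕ} (R : Matrix (Fin 2) (Fin n) ℤ) (S : Matrix (Fin n) (Fin 2) ℤ)
    (W : Submodule ℚ (MQ n)) (D : ℕ) : AddSubgroup M2 where
  carrier := {x | KTH_L R S x ∈ W ∧ ∃ Z : Matrix (Fin n) (Fin n) ℤ, KTH_L R S x = (D : ℚ) • cq Z}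
  add_mem' := by
    rintro a b ⟨ha, Z, hZ⟩ ⟨hb, Z', hZ'⟩
    refine ⟨?_, Z + Z', ?_⟩
    · rw [map_add]
      exact W.add_mem ha hb
    · rw [map_add, hZ, hZ', KTH_cq_add, smul_add]
  zero_mem' := by
    refine ⟨?_, 0, ?_⟩
    · rw [map_zero]
      exact W.zero_mem
    · rw [map_zero, KTH_cq_zero, smul_zero]
  neg_mem' := by
    rintro a ⟨ha, Z, hZ⟩
    refine ⟨?_, -Z, ?_⟩
    · rw [map_neg]
      exact W.neg_mem ha
    · rw [map_neg, hZ, KTH_cq_neg, smul_neg]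

theorem KTH_fg {n : ℕ} (R : Matrix (Fin 2) (Fin n) ℤ) (S : Matrix (Fin n) (Fin 2) ℤ)
    (R' : Matrix (Fin n) (Fin 2) ℚ) (S' : Matrix (Fin 2) (Fin n) ℚ)
    (hinv : ∀ x : M2, S' * KTH_L R S x * R' = x)
    (W : Submodule ℚ (MQ n)) (D : ℕ) : (KTH_Lam R S W D).FG := by
  let φ : Matrix (Fin n) (Fin n) ℤ →+ M2 :=
    { toFun := fun Z => S' * ((D : ℚ) • cq Z) * R'
      map_zero' := by
        rw [KTH_cq_zero, smul_zero, Matrix.mul_zero, Matrix.zero_mul]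
      map_add' := by
        intro A B
        rw [KTH_cq_add, smul_add, Matrix.mul_add, Matrix.add_mul] }
  have hφ : ∀ Z, φ Z = S' * ((D : ℚ) • cq Z) * R' := fun Z => rfl
  let Λ' : AddSubgroup (Matrix (Fin n) (Fin n) ℤ) :=
    { carrier := {Z | ∃ x, KTH_L R S x ∈ W ∧ KTH_L R S x = (D : ℚ) • cq Z}
      add_mem' := by
        rintro a b ⟨x, hx, hx'⟩ ⟨y, hy, hy'⟩
        refine ⟨x + y, ?_, ?_⟩
        · rw [map_add]
          exact W.add_mem hx hy
        · rw [map_add, hx', hy', KTH_cq_add, smul_add]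
      zero_mem' := by
        refine ⟨0, ?_, ?_⟩
        · rw [map_zero]
          exact W.zero_mem
        · rw [map_zero, KTH_cq_zero, smul_zero]
      neg_mem' := by
        rintro a ⟨x, hx, hx'⟩
        refine ⟨-x, ?_, ?_⟩
        · rw [map_neg]
          exact W.neg_mem hx
        · rw [map_neg, hx', KTH_cq_neg, smul_neg] }
  have hfg : Λ'.FG := by
    have h1 : (AddSubgroup.toIntSubmodule Λ').FG := IsNoetherian.noetherian _
    rw [Submodule.fg_iff_addSubgroup_fg] at h1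
    exact h1
  have hmap : KTH_Lam R S W D = Λ'.map φ := by
    ext x
    constructor
    · rintro ⟨hx, Z, hZ⟩
      refine ⟨Z, ⟨x, hx, hZ⟩, ?_⟩
      rw [hφ, ← hZ, hinv]
    · rintro ⟨Z, ⟨y, hy, hy'⟩, hx⟩
      rw [hφ, ← hy', hinv] at hx
      rw [← hx]
      exact ⟨hy, Z, hy'⟩
  rw [hmap]
  classical
  obtain ⟨s, hs⟩ := hfg
  refine ⟨s.image φ, ?_⟩
  rw [Finset.coe_image, ← AddMonoidHom.map_closure, hs]

theorem KTH (hLTA : LTA_stmt) (hLTB : LTB_stmt) (hKGN : KGN_stmt) (hKDT : KDT_stmt)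
    (hKCH : KCH_stmt) (hKMM : KMM_stmt) (hKND : KND_stmt) : KTH_stmt := by
  intro n hn H hZ W b R S hSI hKT
  obtain ⟨R', hR'⟩ := hKT.ri
  obtain ⟨S', hS'⟩ := hKT.si
  -- `L` is injective
  have hinv : ∀ x : M2, S' * KTH_L R S x * R' = x := by
    intro x
    rw [KTH_L_apply]
    calc S' * (cq S * x * cq R) * R' = (S' * cq S) * x * (cq R * R') := by
          simp only [Matrix.mul_assoc]
      _ = x := by rw [hS', hR', Matrix.one_mul, Matrix.mul_one]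
  have hinj : Function.Injective (KTH_L R S) := by
    intro x y hxy
    rw [← hinv x, hxy, hinv y]
  set W₂ : Submodule ℚ M2 := W.comap (KTH_L R S) with hW₂
  have hmem : ∀ x, x ∈ W₂ ↔ KTH_L R S x ∈ W := fun x => Iff.rfl
  have hdet : ∀ x ∈ W₂, x ≠ 0 → x.det ≠ 0 := fun x hx h0 => hKT.inv x hx h0
  -- dimensions
  have hmapW : W₂.map (KTH_L R S) = W := by
    rw [hW₂, Submodule.map_comap_eq, inf_eq_right]
    intro X hX
    obtain ⟨x, hx⟩ := hKT.frm X hX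
    exact ⟨x, hx.symm⟩
  have hfin : finrank ℚ W₂ = finrank ℚ W := by
    have h1 := LinearEquiv.finrank_eq (Submodule.equivMapOfInjective (KTH_L R S) hinj W₂)
    rw [h1, hmapW]
  have hle : finrank ℚ W₂ ≤ 2 := by
    let E : M2 →ₗ[ℚ] (Fin 2 → ℚ) :=
      { toFun := fun x => x *ᵥ ![1, 0]
        map_add' := fun x y => Matrix.add_mulVec x y _
        map_smul' := fun c x => by rw [Matrix.smul_mulVec, RingHom.id_apply] }
    have hE : Function.Injective (E.domRestrict W₂) := by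
      rw [← LinearMap.ker_eq_bot, LinearMap.ker_eq_bot']
      intro x hx
      by_contra hne
      have hx0 : (x : M2) ≠ 0 := fun h => hne (Subtype.ext h)
      have h2 := hdet x x.2 hx0
      have h3 : (x : M2) *ᵥ ![1, 0] = 0 := hx
      have h4 := Matrix.eq_zero_of_mulVec_eq_zero h2 h3
      have h5 := congrFun h4 0
      simp at h5
    have h1 := LinearMap.finrank_le_finrank_of_injective hE
    rw [Module.finrank_fin_fun] at h1
    exact h1
  have hrk : finrank ℚ W₂ = 2 := le_antisymm hle (by rw [hfin]; exact hSI.two)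
  -- the lattice
  obtain ⟨D, hD, hDE⟩ := hLTA n H W hSI.nil hSI.com hSI.log
  have hDq : (D : ℚ) ≠ 0 := by exact_mod_cast hD.ne'
  obtain ⟨T, hT⟩ := hKDT n H W b R S hSI hKT
  have hTL : ∀ x, KTH_L R S (T x) = cj (b ^ 2) (KTH_L R S x) := fun x => ((hT x).1).symm
  have hTk : ∀ (k : ℕ) (x : M2), KTH_L R S ((T ^ k) x) = cj ((b ^ 2) ^ k) (KTH_L R S x) := by
    intro k
    induction k with
    | zero =>
      intro x
      rw [pow_zero, pow_zero, cj_one]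
      rfl
    | succ k ih =>
      intro x
      rw [pow_succ T k, Module.End.mul_apply, ih, hTL, pow_succ (b ^ 2) k, cj_mul]
  have hsta : ∀ (k : ℕ) (X : MQ n), X ∈ W → cj (b ^ k) X ∈ W := by
    intro k
    induction k with
    | zero =>
      intro X hX
      rw [pow_zero, cj_one]
      exact hX
    | succ k ih =>
      intro X hX
      rw [pow_succ, cj_mul]
      exact ih _ (hSI.sta X hX)
  have hTW : ∀ x ∈ W₂, T x ∈ W₂ := by
    intro x hx
    rw [hmem, hTL]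
    exact hsta 2 _ hx
  have hTkW : ∀ (k : ℕ), ∀ x ∈ W₂, (T ^ k) x ∈ W₂ := by
    intro k x hx
    rw [hmem, hTk, ← pow_mul]
    exact hsta _ _ hx
  have hfix : ∀ j : ℕ, 0 < j → ∀ x ∈ W₂, (T ^ j) x = x → x = 0 := by
    intro j hj x hx hxx
    by_contra h0
    have hX0 : KTH_L R S x ≠ 0 := by
      intro h
      apply h0
      apply hinj
      rw [h, map_zero]
    have hcj : cj (b ^ (2 * j)) (KTH_L R S x) = KTH_L R S x := by
      rw [pow_mul, ← hTk, hxx]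
    have h1 := hSI.irr (2 * j) (by omega) (ℚ ∙ (KTH_L R S x)) (by
        rw [Submodule.span_singleton_le_iff_mem]
        exact hx) (by
        rw [Ne, Submodule.span_singleton_eq_bot]
        exact hX0) (by
        intro Y hY
        obtain ⟨c, rfl⟩ := Submodule.mem_span_singleton.1 hY
        rw [map_smul, hcj]
        exact hY)
    have h2 := hSI.two
    rw [← h1, finrank_span_singleton hX0] at h2
    omega
  set Λ : AddSubgroup M2 := KTH_Lam R S W D with hΛ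
  have hΛm : ∀ x, x ∈ Λ ↔ KTH_L R S x ∈ W ∧
      ∃ Z : Matrix (Fin n) (Fin n) ℤ, KTH_L R S x = (D : ℚ) • cq Z := fun x => Iff.rfl
  have hΛfg : Λ.FG := KTH_fg R S R' S' hinv W D
  have hΛW : ∀ x ∈ Λ, x ∈ W₂ := fun x hx => hx.1
  have hΛE : ∀ x ∈ Λ, EX H (cq S * x * cq R) := fun x hx => hDE _ hx.1 hx.2
  have hΛk : ∀ x ∈ W₂, ∃ k : ℕ, 0 < k ∧ (k : ℚ) • x ∈ Λ := by
    intro x hx
    obtain ⟨m, hm, Z, hmZ⟩ := KTH_clear n (KTH_L R S x)
    refine ⟨D * m, Nat.mul_pos hD hm, ?_, Z, ?_⟩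
    · exact W₂.smul_mem _ hx
    · rw [map_smul]
      push_cast
      rw [mul_smul, hmZ]
  have hΛl : ∀ x ∈ W₂, ∀ D' : ℕ, 0 < D' → ∃ j : ℕ, 0 < j ∧ ∀ i : ℕ, ∃ z ∈ Λ,
      (T ^ (j * i)) x - x = (D' : ℚ) • z := by
    intro x hx D' hD'
    have hDq' : (D' : ℚ) ≠ 0 := by exact_mod_cast hD'.ne'
    obtain ⟨j, hj, hji⟩ := hLTB n (b ^ 2) (KTH_L R S x) (D' * D) (Nat.mul_pos hD' hD)
    refine ⟨j, hj, fun i => ?_⟩
    obtain ⟨Z, hZi⟩ := hji i
    refine ⟨(D' : ℚ)⁻¹ • ((T ^ (j * i)) x - x), ⟨?_, Z, ?_⟩, ?_⟩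
    · exact W₂.smul_mem _ (W₂.sub_mem (hTkW _ x hx) hx)
    · rw [map_smul, map_sub, hTk, hZi]
      push_cast
      rw [mul_smul, smul_smul, inv_mul_cancel₀ hDq', one_smul]
    · rw [smul_smul, mul_inv_cancel₀ hDq', one_smul]
  -- a generic element
  have hne : W₂ ≠ ⊤ := by
    intro h
    rw [h, finrank_top] at hrk
    have h4 : finrank ℚ M2 = 4 := by
      rw [Module.finrank_matrix]
      simp
    rw [h4] at hrk
    omega
  have hy : ∃ y ∈ W₂, y.det ≠ 0 := by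
    have h1 : W₂ ≠ ⊥ := by
      intro h
      rw [h, finrank_bot] at hrk
      omega
    obtain ⟨y, hy, hy0⟩ := Submodule.exists_mem_ne_zero_of_ne_bot h1
    exact ⟨y, hy, hdet y hy hy0⟩
  obtain ⟨g, hg, hg1, hg2, hg3⟩ := hKGN n H hZ R S R' S' hKT.rs hR' hS' W₂ hne hy
  obtain ⟨x₁, hx₁, x₂, hx₂, x, hx, hd₁, hd₂, hd, hd0⟩ := hKCH W₂ hrk hdet T hTW
    (fun x _ => (hT x).2) hfix Λ hΛfg hΛW hΛk hΛl (Cb R S g) (Cb R S g⁻¹) hg1 hg2 hg3
  have hm := hKMM n H R S hKT.rs g hg hg1 hg2 x₁ x₂ x (hΛE x₁ hx₁) (hΛE x₂ hx₂) (hΛE x hx)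
    hd₁ hd₂ hd hd0
  exact hKND n hn H hZ R S R' S' hKT.rs hR' hS' W₂ hrk hdet
    (fun x hx => hSI.log _ hx) hm

end Pool.Agent.VA
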